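import Mathlib
import Pool.Agent.Helper505.SinfStab
import Pool.Agent.Helper505.SinfFin

/-!
# Group topologies on the symmetric group of an infinite set

Extensions of the lemmas in `Pool/Agent/Helper505`: neighbourhood bases of less than continuum many
sets, topologies which are not Hausdorff, uncountable sets.
-/

set_option autoImplicit false

open Filter Topology Equiv Equiv.Perm

namespace Pool.Agent.Y811.SG

open Pool.Agent.Helper505.Sinf

section Topological

variable {X : Type} [TopologicalSpace (Perm X)] [IsTopologicalGroup (Perm X)]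

/-- For every moiety, almost all of its symmetric group is small. -/
theorem moiety_good2 [Countable X] [Infinite X] {ι : Type} {B : ι → Set (Perm X)}
    (hB : (𝓝 (1 : Perm X)).HasBasis (fun _ => True) B) (hι : Cardinal.mk ι < Cardinal.continuum)
    {g : Nd → Perm X} (hg : Tendsto g cofinite (𝓝 1))
    {E : Nd × Zt ↪ X} (hE : Good g E) (X₀ : Set X) (h0 : X₀.Infinite) (h0' : X₀ᶜ.Infinite)
    (U : Set (Perm X)) (hU : U ∈ 𝓝 (1 : Perm X)) :
    ∃ F : Set X, F.Finite ∧ ∀ p : Perm X, Off p (X₀ \ F) → p ∈ U := by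
  classical
  by_contra hcon
  simp only [not_exists, not_and, not_forall] at hcon
  obtain ⟨A, hA1, hA2, hA3⟩ := exists_ad (X := X)
  have hmatch : ∀ α, ∃ h : Perm X, ∀ x, h x ∈ X₀ ↔ x ∈ A α := by
    intro α
    obtain ⟨u, -, hu⟩ := exists_match_in (Set.univ) (A α) X₀ (by simpa using hA1 α)
      (by rw [← Set.compl_eq_univ_sdiff]; exact hA2 α) (by simpa using h0)
      (by rw [← Set.compl_eq_univ_sdiff]; exact h0')
    exact ⟨u, fun x => hu x trivial⟩
  choose h hh using hmatch
  have hN : ∀ α, ∃ n, ∀ w ∈ B n, h α * w * (h α)⁻¹ ∈ U := by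
    intro α
    have hc : Continuous (fun w : Perm X => h α * w * (h α)⁻¹) := by fun_prop
    have ht := hc.tendsto 1
    simp only [mul_one, mul_inv_cancel] at ht
    obtain ⟨n, -, hn⟩ := hB.mem_iff.mp (ht hU)
    exact ⟨n, fun w hw => hn hw⟩
  choose N hN using hN
  obtain ⟨n, hn⟩ : ∃ n, {α | N α = n}.Infinite := by
    have hb : Cardinal.mk (ℕ → Bool) = Cardinal.continuum := by simp
    haveI : Infinite (ℕ → Bool) := by
      rw [Cardinal.infinite_iff, hb]
      exact Cardinal.aleph0_le_continuum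
    obtain ⟨n, hn⟩ := Cardinal.exists_infinite_fiber N (by rw [hb]; exact hι)
    exact ⟨n, Set.infinite_coe_iff.1 hn⟩
  let φ := hn.natEmbedding
  let al : ℕ → (ℕ → Bool) := fun j => (φ j).1
  have hal1 : ∀ j, N (al j) = n := fun j => (φ j).2
  have hal2 : Function.Injective al := fun i j hij => φ.injective (Subtype.ext hij)
  obtain ⟨ε⟩ : Nonempty (ℕ ≃ Nd) := nonempty_equiv_of_countable
  let a : X → Nd := fun x => ε (if h : ∃ j, x ∈ A (al j) then Nat.find h else 0)
  have ha : ∀ j x, x ∈ A (al j) → (∀ i < j, x ∉ A (al i)) → a x = ε j := by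
    intro j x hx hx'
    have hex : ∃ j, x ∈ A (al j) := ⟨j, hx⟩
    have h1 : a x = ε (Nat.find hex) := by
      change ε (if h : ∃ j, x ∈ A (al j) then Nat.find h else 0) = _
      rw [dif_pos hex]
    rw [h1]
    congr 1
    apply le_antisymm (Nat.find_min' hex hx)
    by_contra hlt
    exact hx' _ (not_le.mp hlt) (Nat.find_spec hex)
  have hfin : ∀ j, (A (al j) ∩ ⋃ i : Fin j, A (al i)).Finite := by
    intro j
    rw [Set.inter_iUnion]
    apply Set.finite_iUnion
    intro i
    apply hA3
    intro hij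
    have := hal2 hij
    have := i.2
    omega
  have hsub : ∀ j, A (al j) \ (A (al j) ∩ ⋃ i : Fin j, A (al i)) ⊆ a ⁻¹' {ε j} := by
    rintro j x ⟨hx, hx'⟩
    apply ha j x hx
    intro i hi hxi
    exact hx' ⟨hx, Set.mem_iUnion.mpr ⟨⟨i, hi⟩, hxi⟩⟩
  have hinf : ∀ u, (a ⁻¹' {u}).Infinite := by
    intro u
    obtain ⟨j, rfl⟩ := ε.surjective u
    exact ((hA1 _).sdiff (hfin j)).mono (hsub j)
  obtain ⟨u, hu⟩ := good_fiber hg hE a hinf (B n) (hB.mem_of_mem trivial)
  obtain ⟨j, rfl⟩ := ε.surjective u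
  obtain ⟨p, hp, hpU⟩ := hcon (h (al j) '' (A (al j) ∩ ⋃ i : Fin j, A (al i)))
    ((hfin j).image _)
  apply hpU
  have hp' : Off ((h (al j))⁻¹ * p * h (al j)) (a ⁻¹' {ε j}) := by
    apply Off.mono _ (hsub j)
    intro x hx
    rw [Perm.mul_apply, Perm.mul_apply, hp, inv_app]
    rintro ⟨h1, h2⟩
    apply hx
    refine ⟨(hh _ x).mp h1, fun h3 => h2 ⟨x, h3, rfl⟩⟩
  have h1 := hu _ hp'
  have h2 := hN (al j) _ (by rw [hal1]; exact h1)
  have e : h (al j) * ((h (al j))⁻¹ * p * h (al j)) * (h (al j))⁻¹ = p := by group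
  rwa [e] at h2

/-- If a sequence of permutations of infinite support converges to the identity, in the given
topology and pointwise, and the identity has a neighbourhood base of less than continuum many sets,
then the topology is coarser than the topology of pointwise convergence. -/
theorem stab_good2 [Countable X] [Infinite X] {ι : Type} {B : ι → Set (Perm X)}
    (hB : (𝓝 (1 : Perm X)).HasBasis (fun _ => True) B) (hι : Cardinal.mk ι < Cardinal.continuum)
    (g' : ℕ → Perm X) (hg' : Tendsto g' atTop (𝓝 1)) (hinf : ∀ n, {x | g' n x ≠ x}.Infinite)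
    (hp' : ∀ x, {n | g' n x ≠ x}.Finite)
    (U : Set (Perm X)) (hU : U ∈ 𝓝 (1 : Perm X)) :
    ∃ F : Set X, F.Finite ∧ ∀ p : Perm X, (∀ x ∈ F, p x = x) → p ∈ U := by
  classical
  obtain ⟨ε⟩ : Nonempty (Nd ≃ ℕ) := nonempty_equiv_of_countable
  let g : Nd → Perm X := fun u => g' (ε u)
  have hg : Tendsto g cofinite (𝓝 1) := by
    have h1 : Tendsto ε cofinite cofinite := ε.injective.tendsto_cofinite
    rw [Nat.cofinite_eq_atTop] at h1
    exact hg'.comp h1
  have hp : ∀ x, {m | g m x ≠ x}.Finite := by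
    intro x
    exact (hp' x).preimage ε.injective.injOn
  obtain ⟨e, he⟩ := exists_good g (fun u => hinf _) hp
  let E : Nd × Zt ↪ X := ⟨e, he.inj⟩
  have hE : Good g E := he
  -- three parts
  obtain ⟨e3⟩ : Nonempty (X ≃ ℕ × Fin 3) := nonempty_equiv_of_countable
  have hS : ∀ i : Fin 3, {x | (e3 x).2 = i}.Infinite := by
    intro i
    have hinj : Function.Injective (fun n : ℕ => e3.symm (n, i)) := by
      intro m n h
      have := e3.symm.injective h
      simpa using this
    apply (Set.infinite_range_of_injective hinj).mono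
    rintro _ ⟨n, rfl⟩
    simp
  obtain ⟨V, hV, hVU⟩ := exists_nhds_one_split4 hU
  obtain ⟨F₁, hF₁, h1⟩ := moiety_good2 hB hι hg hE {x | (e3 x).2 = 0 ∨ (e3 x).2 = 1}
    ((hS 0).mono (fun x hx => Or.inl hx)) ((hS 2).mono (fun x hx => by
      simp only [Set.mem_ofPred_eq] at hx
      simp [hx])) V hV
  obtain ⟨F₂, hF₂, h2⟩ := moiety_good2 hB hι hg hE {x | (e3 x).2 = 1 ∨ (e3 x).2 = 2}
    ((hS 1).mono (fun x hx => Or.inl hx)) ((hS 0).mono (fun x hx => by
      simp only [Set.mem_ofPred_eq] at hx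
      simp [hx])) V hV
  have hF : (F₁ ∪ F₂).Finite := hF₁.union hF₂
  refine ⟨F₁ ∪ F₂, hF, fun f hf => ?_⟩
  set F := F₁ ∪ F₂ with hFdef
  let S : Fin 3 → Set X := fun i => {x | (e3 x).2 = i} \ F
  have hSinf : ∀ i, (S i).Infinite := fun i => (hS i).sdiff hF
  have h01 : ∀ x, x ∈ S 0 → x ∈ S 1 → False := by
    rintro x ⟨hx, _⟩ ⟨hx', _⟩
    simp only [Set.mem_ofPred_eq] at hx hx'
    rw [hx] at hx'
    exact absurd hx' (by decide)
  have h12 : ∀ x, x ∈ S 1 → x ∈ S 2 → False := by
    rintro x ⟨hx, _⟩ ⟨hx', _⟩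
    simp only [Set.mem_ofPred_eq] at hx hx'
    rw [hx] at hx'
    exact absurd hx' (by decide)
  have hcov : ∀ x, x ∉ F ↔ x ∈ S 0 ∨ x ∈ S 1 ∨ x ∈ S 2 := by
    intro x
    constructor
    · intro hx
      have h3 : ∀ j : Fin 3, j = 0 ∨ j = 1 ∨ j = 2 := by decide
      rcases h3 (e3 x).2 with h | h | h
      · exact Or.inl ⟨h, hx⟩
      · exact Or.inr (Or.inl ⟨h, hx⟩)
      · exact Or.inr (Or.inr ⟨h, hx⟩)
    · rintro (h | h | h) <;> exact h.2
  have hV01 : ∀ p : Perm X, Off p (S 0 ∪ S 1) → p ∈ V := by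
    intro p hp
    apply h1
    apply hp.mono
    rintro x (⟨hx, hxF⟩ | ⟨hx, hxF⟩)
    · exact ⟨Or.inl hx, fun h => hxF (Or.inl h)⟩
    · exact ⟨Or.inr hx, fun h => hxF (Or.inl h)⟩
  have hV12 : ∀ p : Perm X, Off p (S 1 ∪ S 2) → p ∈ V := by
    intro p hp
    apply h2
    apply hp.mono
    rintro x (⟨hx, hxF⟩ | ⟨hx, hxF⟩)
    · exact ⟨Or.inl hx, fun h => hxF (Or.inr h)⟩
    · exact ⟨Or.inr hx, fun h => hxF (Or.inr h)⟩
  have hone : (1 : Perm X) ∈ V := mem_of_mem_nhds hV
  by_cases hcase : ((S 1 ∪ S 2) \ (f '' S 0)).Infinite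
  · obtain ⟨v₁, v₂, v₃, a1, a2, a3, rfl⟩ := decomp (S 0) (S 1) (S 2) F h01 h12 (hSinf 0)
      (hSinf 1) (hSinf 2) hcov f hf hcase
    have := hVU (hV12 _ a1) (hV01 _ a2) (hV12 _ a3) hone
    simpa using this
  · rw [Set.not_infinite] at hcase
    obtain ⟨u₀, hu₀, hu₀'⟩ := exists_match_in (S 0 ∪ S 1) (S 0) (S 1)
      ((hSinf 0).mono (fun x hx => ⟨Or.inl hx, hx⟩))
      ((hSinf 1).mono (fun x hx => ⟨Or.inr hx, fun h => h01 x h hx⟩))
      ((hSinf 1).mono (fun x hx => ⟨Or.inr hx, hx⟩))
      ((hSinf 0).mono (fun x hx => ⟨Or.inl hx, fun h => h01 x hx h⟩))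
    have hfF : ∀ x, x ∉ F → f x ∉ F := by
      intro x hx h
      have := f.injective (hf _ h)
      rw [this] at h
      exact hx h
    have hP : (S 0 \ (f '' S 0)).Infinite := by
      intro hfin
      have h3 : (f '' S 1).Infinite := (hSinf 1).image f.injective.injOn
      apply h3
      apply (hfin.union hcase).subset
      rintro _ ⟨x, hx, rfl⟩
      have hx' : f x ∉ f '' S 0 := by
        rintro ⟨y, hy, hyx⟩
        rw [f.injective hyx] at hy
        exact h01 x hy hx
      rcases (hcov (f x)).mp (hfF x hx.2) with h | h | h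
      · exact Or.inl ⟨h, hx'⟩
      · exact Or.inr ⟨Or.inl h, hx'⟩
      · exact Or.inr ⟨Or.inr h, hx'⟩
    have hcase' : ((S 1 ∪ S 2) \ ((u₀ * f : Perm X) '' S 0)).Infinite := by
      have h3 : (u₀ '' (S 0 \ (f '' S 0))).Infinite := hP.image u₀.injective.injOn
      apply h3.mono
      rintro _ ⟨x, ⟨hx, hx'⟩, rfl⟩
      refine ⟨Or.inl ((hu₀' x (Or.inl hx)).mpr hx), ?_⟩
      rintro ⟨y, hy, hyx⟩
      rw [Perm.mul_apply] at hyx
      exact hx' ⟨y, hy, u₀.injective hyx⟩
    have hf' : ∀ x ∈ F, (u₀ * f) x = x := by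
      intro x hx
      rw [Perm.mul_apply, hf x hx]
      apply hu₀
      rintro (h | h) <;> exact h.2 hx
    obtain ⟨v₁, v₂, v₃, a1, a2, a3, a4⟩ := decomp (S 0) (S 1) (S 2) F h01 h12 (hSinf 0)
      (hSinf 1) (hSinf 2) hcov (u₀ * f) hf' hcase'
    have := hVU (hV01 _ hu₀.inv) (hV12 _ a1) (hV01 _ a2) (hV12 _ a3)
    have e : u₀⁻¹ * v₁ * v₂ * v₃ = f := by
      calc u₀⁻¹ * v₁ * v₂ * v₃ = u₀⁻¹ * (v₁ * v₂ * v₃) := by group
        _ = u₀⁻¹ * (u₀ * f) := by rw [a4]
        _ = f := by group
    rwa [e] at this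


end Topological

/-! ### Even finitary permutations -/

/-- Every permutation agrees on a given finite set with a finitary even permutation. -/
theorem exists_alt_agree {X : Type} [DecidableEq X] [Infinite X] (g : Perm X) (F : Finset X) :
    ∃ a ∈ alt X, ∀ x ∈ F, a x = g x := by
  induction F using Finset.induction_on with
  | empty => exact ⟨1, (alt X).one_mem, by simp⟩
  | insert y F hy ih =>
    obtain ⟨a, ha, haF⟩ := ih
    by_cases h : a y = g y
    · refine ⟨a, ha, fun x hx => ?_⟩
      rcases Finset.mem_insert.1 hx with rfl | hx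
      · exact h
      · exact haF x hx
    · obtain ⟨u, hu⟩ := Infinite.exists_notMem_finset (F.image g ∪ {a y, g y})
      obtain ⟨v, hv⟩ := Infinite.exists_notMem_finset (F.image g ∪ {a y, g y, u})
      simp only [Finset.mem_union, Finset.mem_insert, Finset.mem_singleton, not_or,
        Finset.mem_image, not_exists, not_and] at hu hv
      have hs : swap (a y) (g y) * swap u v ∈ alt X :=
        Subgroup.subset_closure ⟨_, _, _, _, h, Ne.symm hv.2.2.2, rfl⟩
      refine ⟨swap (a y) (g y) * swap u v * a, (alt X).mul_mem hs ha, fun x hx => ?_⟩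
      rcases Finset.mem_insert.1 hx with rfl | hx
      · rw [Perm.mul_apply, Perm.mul_apply, swap_apply_of_ne_of_ne (Ne.symm hu.2.1)
          (Ne.symm hv.2.1), swap_apply_left]
      · rw [Perm.mul_apply, Perm.mul_apply, haF x hx]
        have e1 : g x ≠ u := hu.1 x hx
        have e2 : g x ≠ v := hv.1 x hx
        have e3 : g x ≠ a y := by
          rw [← haF x hx]
          intro h'
          have := a.injective h'
          rw [this] at hx
          exact hy hx
        have e4 : g x ≠ g y := by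
          intro h'
          have := g.injective h'
          rw [this] at hx
          exact hy hx
        rw [swap_apply_of_ne_of_ne e1 e2, swap_apply_of_ne_of_ne e3 e4]

theorem swap_commute_of_disjoint' {X : Type} [DecidableEq X] {p q r s : X} (h1 : p ≠ r)
    (h2 : p ≠ s) (h3 : q ≠ r) (h4 : q ≠ s) : swap p q * swap r s = swap r s * swap p q := by
  apply Equiv.ext
  intro x
  simp only [Perm.mul_apply, swap_apply_def]
  split_ifs <;> simp_all

theorem alt_finite {X : Type} [DecidableEq X] {g : Perm X} (hg : g ∈ alt X) :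
    {x | g x ≠ x}.Finite := by
  unfold alt at hg
  induction hg using Subgroup.closure_induction with
  | mem t ht =>
    obtain ⟨a, b, c, d, h1, h2, rfl⟩ := ht
    exact mul_support_finite (swap_support_finite _ _) (swap_support_finite _ _)
  | one => simp
  | mul s t _ _ hs ht => exact mul_support_finite hs ht
  | inv t _ ht => exact inv_support_finite ht

/-- A nontrivial normal subgroup contains the finitary even permutations. -/
theorem alt_le_of_normal {X : Type} [DecidableEq X] [Infinite X] (N : Subgroup (Perm X))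
    (hN : ∀ n ∈ N, ∀ g : Perm X, g * n * g⁻¹ ∈ N) {n : Perm X} (hn : n ∈ N) (hn1 : n ≠ 1) :
    alt X ≤ N := by
  obtain ⟨a, ha⟩ : ∃ a, n a ≠ a := by
    by_contra h
    simp only [not_exists, not_not] at h
    exact hn1 (Equiv.ext h)
  obtain ⟨b, hb⟩ := Infinite.exists_notMem_finset ({a, n a, n⁻¹ a} : Finset X)
  simp only [Finset.mem_insert, Finset.mem_singleton, not_or] at hb
  obtain ⟨hb1, hb2, hb3⟩ := hb
  have hnb : n b ≠ a := by
    intro h
    apply hb3
    rw [← h, inv_app]
  have hnb2 : n b ≠ n a := fun h => hb1 (n.injective h)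
  -- a product of two transpositions
  have h1 : swap (n a) (n b) * swap a b ∈ N := by
    have h2 := N.mul_mem hn (N.inv_mem (hN n hn (swap a b)))
    have e : n * (swap a b * n * (swap a b)⁻¹)⁻¹ = swap (n a) (n b) * swap a b := by
      calc n * (swap a b * n * (swap a b)⁻¹)⁻¹ = (n * swap a b) * n⁻¹ * (swap a b)⁻¹ := by group
        _ = swap (n a) (n b) * n * n⁻¹ * (swap a b)⁻¹ := by rw [Equiv.mul_swap_eq_swap_mul]
        _ = swap (n a) (n b) * swap a b := by rw [mul_inv_cancel_right, swap_inv]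
    rwa [e] at h2
  generalize n a = p at *
  generalize n b = q at *
  -- a cycle of length three
  obtain ⟨u, v, w, huv, huw, hvw, h3⟩ : ∃ u v w, u ≠ v ∧ u ≠ w ∧ v ≠ w ∧
      swap u v * swap v w ∈ N := by
    by_cases hqb : q = b
    · refine ⟨p, b, a, ?_, ha, hb1, ?_⟩
      · exact Ne.symm hb2
      · rw [hqb, swap_comm a b] at h1
        exact h1
    · obtain ⟨e, he⟩ := Infinite.exists_notMem_finset ({a, b, p, q} : Finset X)
      simp only [Finset.mem_insert, Finset.mem_singleton, not_or] at he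
      obtain ⟨he1, he2, he3, he4⟩ := he
      refine ⟨b, a, e, hb1, Ne.symm he2, Ne.symm he1, ?_⟩
      have h4 := hN _ h1 (swap b e)
      have h5 : swap b e * (swap p q * swap a b) * (swap b e)⁻¹ = swap p q * swap a e := by
        rw [conj_swap_swap, swap_apply_of_ne_of_ne (Ne.symm hb2) (Ne.symm he3),
          swap_apply_of_ne_of_ne hqb (Ne.symm he4), swap_apply_of_ne_of_ne (Ne.symm hb1)
          (Ne.symm he1), swap_apply_left]
      rw [h5] at h4
      have h6 := N.mul_mem h1 h4
      have h7 : swap p q * swap a b = swap a b * swap p q :=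
        swap_commute_of_disjoint' ha (Ne.symm hb2) hnb hqb
      have h8 : swap p q * swap a b * (swap p q * swap a e) = swap b a * swap a e := by
        calc swap p q * swap a b * (swap p q * swap a e)
            = swap a b * (swap p q * swap p q) * swap a e := by
              rw [h7]
              group
          _ = _ := by rw [swap_mul_self, mul_one, swap_comm a b]
      rwa [h8] at h6
  have h4 : ∀ x y z : X, x ≠ y → x ≠ z → y ≠ z → swap x y * swap y z ∈ N := by
    intro x y z hxy hxz hyz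
    obtain ⟨h, -, -, e1, e2, e3⟩ := exists_triple (X := X) ∅ (a := u) (b := v) (c := w) (a' := x)
      (b' := y) (c' := z) (by simp) (by simp) (by simp) (by simp) (by simp) (by simp) huv huw hvw
      hxy hxz hyz
    have h5 := hN _ h3 h
    rw [conj_swap_swap, e1, e2, e3] at h5
    exact h5
  unfold alt
  rw [Subgroup.closure_le]
  rintro _ ⟨x, y, z, t, hxy, hzt, rfl⟩
  have h5 : ∀ x y z : X, x ≠ y → y ≠ z → swap x y * swap y z ∈ N := by
    intro x y z hxy hyz
    by_cases hxz : x = z
    · rw [hxz, swap_comm y z, swap_mul_self]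
      exact N.one_mem
    · exact h4 x y z hxy hxz hyz
  by_cases hyz : y = z
  · rw [← hyz]
    exact h5 x y t hxy (by rw [hyz]; exact hzt)
  · have h6 := N.mul_mem (h5 x y z hxy hyz) (h5 y z t hyz hzt)
    have e : swap x y * swap y z * (swap y z * swap z t) = swap x y * swap z t := by
      calc swap x y * swap y z * (swap y z * swap z t)
          = swap x y * (swap y z * swap y z) * swap z t := by group
        _ = _ := by rw [swap_mul_self, mul_one]
    rwa [e] at h6

end Pool.Agent.Y811.SG
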