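import Mathlib
import Pool.Agent.Y811.SG.Base

/-!
# Group topologies on the symmetric group: topologies which are not Hausdorff, uncountable sets
-/

set_option autoImplicit false

open Filter Topology Equiv Equiv.Perm

namespace Pool.Agent.Y811.SG

open Pool.Agent.Helper505.Sinf

/-- The intersection of the neighbourhoods of the identity. -/
def ker (G : Type) [Group G] [TopologicalSpace G] [IsTopologicalGroup G] : Subgroup G where
  carrier := {x | ∀ U ∈ 𝓝 (1 : G), x ∈ U}
  one_mem' := fun _ hU => mem_of_mem_nhds hU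
  mul_mem' := by
    intro x y hx hy U hU
    obtain ⟨V, hV, hVU⟩ := exists_nhds_one_split hU
    exact hVU x (hx V hV) y (hy V hV)
  inv_mem' := by
    intro x hx U hU
    have h : Tendsto (fun y : G => y⁻¹) (𝓝 1) (𝓝 1) := by
      have := (continuous_inv (G := G)).tendsto 1
      rwa [inv_one] at this
    exact hx _ (h hU)

theorem mem_ker {G : Type} [Group G] [TopologicalSpace G] [IsTopologicalGroup G] {x : G} :
    x ∈ ker G ↔ ∀ U ∈ 𝓝 (1 : G), x ∈ U := Iff.rfl

theorem ker_normal {G : Type} [Group G] [TopologicalSpace G] [IsTopologicalGroup G] :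
    ∀ n ∈ ker G, ∀ g : G, g * n * g⁻¹ ∈ ker G := by
  intro n hn g U hU
  have hc : Continuous (fun y : G => g * y * g⁻¹) := by fun_prop
  have h := hc.tendsto 1
  simp only [mul_one, mul_inv_cancel] at h
  exact hn _ (h hU)

section Topological

variable {X : Type} [TopologicalSpace (Perm X)] [IsTopologicalGroup (Perm X)]

/-- If the even finitary permutations are in all neighbourhoods of the identity, and all
neighbourhoods of the identity contain permutations of infinite support, then the topology is
indiscrete. -/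
theorem indiscrete [Countable X] [Infinite X] [DecidableEq X] [FirstCountableTopology (Perm X)]
    (halt : alt X ≤ ker (Perm X))
    (hinf : ∀ V ∈ 𝓝 (1 : Perm X), ∃ g ∈ V, {x | g x ≠ x}.Infinite) :
    ∀ U ∈ 𝓝 (1 : Perm X), ∀ p : Perm X, p ∈ U := by
  intro U hU p
  obtain ⟨W, hW⟩ := (𝓝 (1 : Perm X)).exists_antitone_basis
  have hseq : ∀ n, ∃ g ∈ W n, {x | g x ≠ x}.Infinite := fun n => hinf _ (hW.mem n)
  choose g hg1 hg2 using hseq
  obtain ⟨e⟩ : Nonempty (ℕ ≃ X) := nonempty_equiv_of_countable
  have hex : ∀ n, ∃ a ∈ alt X, ∀ x ∈ (Finset.range n).image e, a x = (g n)⁻¹ x := fun n =>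
    exists_alt_agree (g n)⁻¹ _
  choose a ha1 ha2 using hex
  have hlim : Tendsto g atTop (𝓝 1) := hW.tendsto hg1
  have hlim2 : Tendsto a atTop (𝓝 1) := by
    intro V hV
    rw [mem_map]
    exact Filter.univ_mem' fun n => halt (ha1 n) V hV
  have hlim3 : Tendsto (fun n => g n * a n) atTop (𝓝 1) := by
    have := hlim.mul hlim2
    rwa [mul_one] at this
  have hinf2 : ∀ n, {x | (g n * a n) x ≠ x}.Infinite := by
    intro n hfin
    apply hg2 n
    have h1 := mul_support_finite hfin (inv_support_finite (alt_finite (ha1 n)))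
    rwa [mul_inv_cancel_right] at h1
  have hp : ∀ x, {n | (g n * a n) x ≠ x}.Finite := by
    intro x
    apply (Set.finite_Iic (e.symm x)).subset
    intro n hn
    rw [Set.mem_Iic]
    by_contra hlt
    apply hn
    rw [Perm.mul_apply, ha2 n x, app_inv]
    rw [Finset.mem_image]
    exact ⟨e.symm x, Finset.mem_range.2 (by omega), e.apply_symm_apply x⟩
  obtain ⟨V, hV, hVU⟩ := exists_nhds_one_split hU
  obtain ⟨B, hB⟩ := (𝓝 (1 : Perm X)).exists_antitone_basis
  obtain ⟨F, hF, hFV⟩ := stab_good2 hB.toHasBasis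
    (by rw [Cardinal.mk_nat]; exact Cardinal.aleph0_lt_continuum) (fun n => g n * a n) hlim3 hinf2 hp
    V hV
  obtain ⟨b, hb, hbF⟩ := exists_alt_agree p hF.toFinset
  have h1 : b⁻¹ * p ∈ V := by
    apply hFV
    intro x hx
    rw [Perm.mul_apply, ← hbF x (hF.mem_toFinset.2 hx), inv_app]
  have h2 := hVU b (halt hb V hV) _ h1
  rwa [mul_inv_cancel_left] at h2

/-- On an uncountable set every Hausdorff first countable group topology is discrete. -/
theorem discrete_of_uncountable [Uncountable X] [T2Space (Perm X)]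
    [FirstCountableTopology (Perm X)] : {(1 : Perm X)} ∈ 𝓝 (1 : Perm X) := by
  classical
  obtain ⟨V, hV⟩ := (𝓝 (1 : Perm X)).exists_antitone_basis
  let Y : ℕ → Set X := fun n => {x | ∀ g ∈ V n, g x = x}
  have hmono : ∀ m n, m ≤ n → Y m ⊆ Y n := fun m n hmn x hx g hg => hx g (hV.antitone hmn hg)
  have hcov : ∀ x, ∃ n, x ∈ Y n := by
    intro x
    obtain ⟨n, -, hn⟩ := hV.toHasBasis.mem_iff.1 (stab_point x)
    exact ⟨n, fun g hg => hn hg⟩
  by_cases htop : ∃ n, Y n = Set.univ
  · obtain ⟨n, hn⟩ := htop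
    apply mem_of_superset (hV.mem n)
    intro g hg
    rw [Set.mem_singleton_iff]
    apply Equiv.ext
    intro x
    have hx : x ∈ Y n := by
      rw [hn]
      trivial
    exact hx g hg
  exfalso
  push Not at htop
  -- an infinite set of fixed points
  obtain ⟨n, hn⟩ : ∃ n, (Y n).Infinite := by
    by_contra hcon
    simp only [not_exists, Set.not_infinite] at hcon
    have h1 : (Set.univ : Set X) = ⋃ n, Y n := by
      ext x
      simp only [Set.mem_univ, Set.mem_iUnion, true_iff]
      exact hcov x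
    have h2 : (Set.univ : Set X).Countable := by
      rw [h1]
      exact Set.countable_iUnion fun n => (hcon n).countable
    exact not_countable (Set.countable_univ_iff.1 h2)
  have hY : ∀ m, n ≤ m → ((Y m)ᶜ).Infinite := by
    intro m hm hfin
    -- finitely many points lie in some `Y k`
    choose N hN using hcov
    obtain ⟨k, hk⟩ : ∃ k, ∀ x ∈ (Y m)ᶜ, N x ≤ k := by
      obtain ⟨k, hk⟩ := (hfin.image N).bddAbove
      exact ⟨k, fun x hx => hk ⟨x, hx, rfl⟩⟩
    apply htop (max m k)
    apply Set.eq_univ_of_forall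
    intro x
    by_cases hx : x ∈ Y m
    · exact hmono _ _ (le_max_left _ _) hx
    · exact hmono _ _ ((hk x hx).trans (le_max_right _ _)) (hN x)
  obtain ⟨b, hb1, hb2⟩ := exists_seq_avoid (fun k => (Y (n + k))ᶜ) (fun k => hY _ (by omega))
    (fun _ _ x => {x}) (fun _ _ x => Set.finite_singleton x)
  have hbinj : Function.Injective b := by
    intro i j hij
    by_contra hne
    rcases lt_or_gt_of_ne hne with h | h
    · exact hb2 i j h (by rw [Set.mem_singleton_iff, hij])
    · exact hb2 j i h (by rw [Set.mem_singleton_iff, hij])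
  let φ := hn.natEmbedding
  let a : ℕ → X := fun k => (φ k).1
  have ha1 : ∀ k, a k ∈ Y n := fun k => (φ k).2
  have hainj : Function.Injective a := Subtype.val_injective.comp φ.injective
  have hab : ∀ i j, a i ≠ b j := by
    intro i j h
    have h1 := ha1 i
    rw [h] at h1
    exact hb1 j (hmono n (n + j) (by omega) h1)
  let s : ℕ ⊕ ℕ → X := Sum.elim a b
  have hs : Function.Injective s := by
    rintro (i | i) (j | j) h
    · exact congrArg _ (hainj h)
    · exact absurd h (hab i j)
    · exact absurd h.symm (hab j i)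
    · exact congrArg _ (hbinj h)
  let f : ℕ ⊕ ℕ ≃ {x // x ∈ Set.range s} := Equiv.ofInjective s hs
  let σ : Perm (ℕ ⊕ ℕ) := Equiv.sumComm ℕ ℕ
  let h : Perm X := σ.extendDomain f
  have hh : ∀ k, h (a k) = b k := by
    intro k
    have h1 := Equiv.Perm.extendDomain_apply_image σ f (Sum.inl k)
    exact h1
  -- conjugation
  have hc : Continuous (fun g : Perm X => h⁻¹ * g * h) := by fun_prop
  have ht := hc.tendsto 1
  simp only [mul_one, inv_mul_cancel] at ht
  obtain ⟨m, -, hm⟩ := hV.toHasBasis.mem_iff.1 (ht (hV.mem n))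
  have h1 : ∀ j, b j ∈ Y m := by
    intro j g hg
    have h2 : h⁻¹ * g * h ∈ V n := hm hg
    have h3 := ha1 j _ h2
    rw [Perm.mul_apply, Perm.mul_apply, hh, Perm.inv_eq_iff_eq, hh] at h3
    exact h3.symm ▸ h3
  exact hb1 m (hmono m (n + m) (by omega) (h1 m))

end Topological

end Pool.Agent.Y811.SG
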